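import Pool.Agent.R689.GM.Elim
import Pool.Agent.R689.GM.Base
import Pool.Agent.R689.GM.LowKer
import Pool.Agent.R689.GM.LowH1
import Pool.Agent.R689.GM.Low
import Pool.Agent.R689.GM.Ker
import Pool.Agent.R689.GM.Div
import Pool.Agent.R689.GM.Step
import Pool.Agent.R689.GM.Main
import Pool.Agent.R689.GM.Ring
import Pool.Agent.R689.GM.Fin

namespace Pool.Agent.Results.MP_514cbf_ag.SymmetricChoice

open Pool.Agent.R689.GM Matrix

/-- The polynomial ring `k[x, y, z]` is `P3 k = k[z][y][x]`; the linear form with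
coefficient vector `v`. -/
noncomputable def linForm {k : Type} [Field k] (v : Fin 3 → k) : P3 k :=
  sc (v 0) * px k + sc (v 1) * py k + sc (v 2) * pz k

/-- An admissible choice for `d = 2h`: points `p ≠ q` of the plane, lines `L_{j+1}` through `p`
with coefficient vectors `l j` and lines `L'_{t+1}` through `q` with coefficient vectors `l' t`
(`j, t < 2h`), such that the points `L_{j+1} ∩ L'_{t+1}`, `t + 1 ≤ m_{j+1} = 2 ⌊j/2⌋ + 2`
(cross products of the coefficient vectors) are defined and pairwise distinct. -/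
structure Admissible {k : Type} [Field k] (h : ℕ) (p q : Fin 3 → k) (l l' : ℕ → Fin 3 → k) :
    Prop where
  p_ne : p ≠ 0
  q_ne : q ≠ 0
  p_ne_q : ∀ c : k, p ≠ c • q
  l_ne : ∀ j < 2 * h, l j ≠ 0
  l'_ne : ∀ t < 2 * h, l' t ≠ 0
  through_p : ∀ j < 2 * h, l j ⬝ᵥ p = 0
  through_q : ∀ t < 2 * h, l' t ⬝ᵥ q = 0
  lines_ne : ∀ j < 2 * h, ∀ j' < 2 * h, j ≠ j' → ∀ c : k, l j ≠ c • l j'
  lines'_ne : ∀ t < 2 * h, ∀ t' < 2 * h, t ≠ t' → ∀ c : k, l' t ≠ c • l' t'
  point : ∀ j < 2 * h, ∀ t < 2 * (j / 2) + 2, l j ⨯₃ l' t ≠ 0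
  points_ne : ∀ j < 2 * h, ∀ t < 2 * (j / 2) + 2, ∀ j' < 2 * h, ∀ t' < 2 * (j' / 2) + 2,
    (j, t) ≠ (j', t') → ∀ c : k, l j ⨯₃ l' t ≠ c • (l j' ⨯₃ l' t')

/-- The generators `F_{i+1} = β_1 ⋯ β_i α_{i+1} ⋯ α_h`, `i = 0, …, h`, of the ideal of `B_{2h}`, where
`α_s = L_{2s-1} L_{2s}` and `β_s = L'_{2s-1} L'_{2s}`. -/
noncomputable def gmGen {k : Type} [Field k] (h : ℕ) (l l' : ℕ → Fin 3 → k)
    (i : Fin (h + 1)) : P3 k :=
  (∏ s ∈ Finset.range i, (linForm (l' (2 * s)) * linForm (l' (2 * s + 1)))) *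
    ∏ s ∈ Finset.Ico (i : ℕ) h, (linForm (l (2 * s)) * linForm (l (2 * s + 1)))

/-- The defining ideal `ker (A[T_0, …] → A[t], T_i ↦ f_i t)` of the Rees algebra. -/
noncomputable def reesIdeal {A : Type} [CommRing A] {m : ℕ} (f : Fin m → A) :
    Ideal (MvPolynomial (Fin m) A) :=
  RingHom.ker (MvPolynomial.aeval
    (fun i : Fin m => Polynomial.C (f i) * (Polynomial.X : Polynomial A)))

/-- The relation type is at most `n`: the defining ideal of the Rees algebra is generated by its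
homogeneous elements of `T`-degree at most `n`. -/
def RelTypeLE {A : Type} [CommRing A] {m : ℕ} (f : Fin m → A) (n : ℕ) : Prop :=
  reesIdeal f = Ideal.span {p | p ∈ reesIdeal f ∧ ∃ j ≤ n, p.IsHomogeneous j}


theorem sc_sub {k : Type} [Field k] (a b : k) : (sc (a - b) : P3 k) = sc a - sc b := by
  simp [sc]

theorem sc_unit {k : Type} [Field k] (a : k) (ha : a ≠ 0) : IsUnit (sc a : P3 k) := by
  refine ⟨⟨sc a, sc a⁻¹, ?_, ?_⟩, rfl⟩
  · unfold sc
    rw [← Polynomial.C_mul, ← Polynomial.C_mul, ← Polynomial.C_mul, mul_inv_cancel₀ ha]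
    simp
  · unfold sc
    rw [← Polynomial.C_mul, ← Polynomial.C_mul, ← Polynomial.C_mul, inv_mul_cancel₀ ha]
    simp

theorem final (hMain : MainStmt) (hKer : KerStmt) (hRing : RingStmt) (hFin : FinStmt)
    (k : Type) [Field k] (a b : ℕ → k) (h : ℕ) (ha : ∀ i j, i < j → j < h → a j ≠ a i) :
    RelTypeLE (fun i : Fin (h + 1) => (FF (fun s => px k ^ 2 - sc (a s) * pz k ^ 2)
      (fun s => py k ^ 2 - sc (b s) * pz k ^ 2) h i : P3 k)) 3 := by
  unfold RelTypeLE
  apply le_antisymm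
  · intro q hq
    refine hFin (P3 k) (px k ^ 2) (py k ^ 2) (pz k ^ 2) (fun s => sc (a s)) (fun s => sc (b s)) h
      (hKer _ _ _ _ _ _ _ (hRing k 0 0).1) ?_ q hq
    refine hMain (P3 k) (px k ^ 2) (py k ^ 2) (pz k ^ 2) (fun s => sc (a s)) (fun s => sc (b s)) h
      ?_ (hRing k 0 0).1 ?_ ?_ ?_ ?_ h le_rfl
    · intro i j hij hj
      rw [← sc_sub]
      exact sc_unit _ (sub_ne_zero.2 (ha i j hij hj))
    · intro i _
      exact (hRing k (a i) 0).2.1
    · intro i _ s _
      exact (hRing k (a i) (b s)).2.2.1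
    · intro i _
      exact (hRing k (a i) 0).2.2.2.1
    · intro i _
      exact (hRing k (a i) 0).2.2.2.2
  · rw [Ideal.span_le]
    intro p hp
    exact hp.1

/-- The slopes `c_0, -c_0, c_1, -c_1, …`. -/
def slope {k : Type} [Field k] (c : ℕ → k) (j : ℕ) : k := if j % 2 = 0 then c (j / 2) else - c (j / 2)

theorem slope_inj {k : Type} [Field k] (h2 : (2 : k) ≠ 0) (c : ℕ → k) (h0 : ∀ i, c i ≠ 0)
    (hc : ∀ i j, c i ^ 2 = c j ^ 2 → i = j) (i j : ℕ) (hij : slope c i = slope c j) : i = j := by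
  have hsq : c (i / 2) ^ 2 = c (j / 2) ^ 2 := by
    have h1 : slope c i ^ 2 = c (i / 2) ^ 2 := by unfold slope; split_ifs <;> ring
    have h3 : slope c j ^ 2 = c (j / 2) ^ 2 := by unfold slope; split_ifs <;> ring
    rw [← h1, ← h3, hij]
  have h4 := hc _ _ hsq
  have h5 : c (i / 2) ≠ - c (i / 2) := by
    intro h6
    have : (2 : k) * c (i / 2) = 0 := by linear_combination h6
    rcases mul_eq_zero.1 this with h | h
    · exact h2 h
    · exact h0 _ h
  unfold slope at hij
  rw [← h4] at hij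
  split_ifs at hij with h6 h7 h7
  · omega
  · exact absurd hij h5
  · exact absurd hij.symm h5
  · omega

theorem exists_seq (k : Type) [Field k] [Infinite k] :
    ∃ c : ℕ → k, (∀ i, c i ≠ 0) ∧ ∀ i j, c i ^ 2 = c j ^ 2 → i = j := by
  classical
  have hinf : Set.Infinite ((fun x : k => x ^ 2) '' {x | x ≠ 0}) := by
    intro hfin
    have h1 : Set.Finite ((fun x : k => x ^ 2) ⁻¹' ((fun x : k => x ^ 2) '' {x | x ≠ 0})) := by
      apply hfin.preimage'
      intro b _
      have h3 : (fun x : k => x ^ 2) ⁻¹' {b} ⊆ (↑(Polynomial.X ^ 2 - Polynomial.C b : Polynomial k).roots.toFinset : Set k) := by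
        intro x hx
        have hne : (Polynomial.X ^ 2 - Polynomial.C b : Polynomial k) ≠ 0 :=
          Polynomial.X_pow_sub_C_ne_zero (by norm_num) b
        simp only [Set.mem_preimage, Set.mem_singleton_iff] at hx
        simp [hne, hx]
      exact (Finset.finite_toSet _).subset h3
    have h4 : Set.Finite ({x : k | x ≠ 0}) := h1.subset (Set.subset_preimage_image _ _)
    have h5 : Set.Finite (Set.univ : Set k) := by
      have : (Set.univ : Set k) = {x | x ≠ 0} ∪ {0} := by
        ext x; by_cases hx : x = 0 <;> simp [hx]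
      rw [this]
      exact h4.union (Set.finite_singleton 0)
    exact Set.infinite_univ h5
  obtain ⟨f⟩ : Nonempty (ℕ ↪ ((fun x : k => x ^ 2) '' {x | x ≠ 0})) := ⟨hinf.natEmbedding⟩
  choose g hg using fun n => (f n).2
  refine ⟨g, fun i => (hg i).1, fun i j hij => ?_⟩
  apply f.injective
  apply Subtype.ext
  rw [← (hg i).2, ← (hg j).2]
  exact hij

theorem admissible {k : Type} [Field k] (h2 : (2 : k) ≠ 0) (c : ℕ → k) (h0 : ∀ i, c i ≠ 0)
    (hc : ∀ i j, c i ^ 2 = c j ^ 2 → i = j) (h : ℕ) :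
    Admissible h ![0, 1, 0] ![1, 0, 0] (fun j => ![1, 0, -slope c j])
      (fun t => ![0, 1, -slope c t]) := by
  constructor
  · intro h1; simpa using congrFun h1 1
  · intro h1; simpa using congrFun h1 0
  · intro r h1; simpa using congrFun h1 1
  · intro j _ h1; simpa using congrFun h1 0
  · intro j _ h1; simpa using congrFun h1 1
  · intro j _; simp [dotProduct, Fin.sum_univ_three]
  · intro j _; simp [dotProduct, Fin.sum_univ_three]
  · intro j _ j' _ hne r h1
    have e1 : (1 : k) = r := by simpa using congrFun h1 0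
    have e2 : slope c j = r * slope c j' := by simpa using congrFun h1 2
    rw [← e1, one_mul] at e2
    exact hne (slope_inj h2 c h0 hc _ _ e2)
  · intro j _ j' _ hne r h1
    have e1 : (1 : k) = r := by simpa using congrFun h1 1
    have e2 : slope c j = r * slope c j' := by simpa using congrFun h1 2
    rw [← e1, one_mul] at e2
    exact hne (slope_inj h2 c h0 hc _ _ e2)
  · intro j _ t _ h1
    have := congrFun h1 2
    simp [cross_apply] at this
  · intro j _ t _ j' _ t' _ hne r h1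
    have e0 := congrFun h1 0
    have e1 := congrFun h1 1
    have e2 := congrFun h1 2
    simp [cross_apply] at e0 e1 e2
    rw [← e2, one_mul] at e0 e1
    exact hne (Prod.ext (slope_inj h2 c h0 hc _ _ e0) (slope_inj h2 c h0 hc _ _ e1))

theorem prod_x {k : Type} [Field k] (c : ℕ → k) (s : ℕ) :
    linForm (![1, 0, -slope c (2 * s)] : Fin 3 → k) * linForm ![1, 0, -slope c (2 * s + 1)] =
      px k ^ 2 - sc (c s ^ 2) * pz k ^ 2 := by
  have h1 : slope c (2 * s) = c s := by unfold slope; rw [if_pos (by omega)]; congr 1; omega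
  have h3 : slope c (2 * s + 1) = - c s := by
    unfold slope; rw [if_neg (by omega)]; congr 2; omega
  have h4 : (sc (0 : k) : P3 k) = 0 := by simp [sc]
  have h5 : (sc (1 : k) : P3 k) = 1 := by simp [sc]
  have h6 : ∀ a : k, (sc (-a) : P3 k) = - sc a := by intro a; simp [sc]
  have h7 : (sc (c s ^ 2) : P3 k) = sc (c s) ^ 2 := by simp [sc]
  simp only [linForm, h1, h3, Matrix.cons_val_zero, Matrix.cons_val_one, Matrix.cons_val, h4, h5,
    h6, h7, neg_neg]
  ring

theorem prod_y {k : Type} [Field k] (c : ℕ → k) (s : ℕ) :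
    linForm (![0, 1, -slope c (2 * s)] : Fin 3 → k) * linForm ![0, 1, -slope c (2 * s + 1)] =
      py k ^ 2 - sc (c s ^ 2) * pz k ^ 2 := by
  have h1 : slope c (2 * s) = c s := by unfold slope; rw [if_pos (by omega)]; congr 1; omega
  have h3 : slope c (2 * s + 1) = - c s := by
    unfold slope; rw [if_neg (by omega)]; congr 2; omega
  have h4 : (sc (0 : k) : P3 k) = 0 := by simp [sc]
  have h5 : (sc (1 : k) : P3 k) = 1 := by simp [sc]
  have h6 : ∀ a : k, (sc (-a) : P3 k) = - sc a := by intro a; simp [sc]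
  have h7 : (sc (c s ^ 2) : P3 k) = sc (c s) ^ 2 := by simp [sc]
  simp only [linForm, h1, h3, Matrix.cons_val_zero, Matrix.cons_val_one, Matrix.cons_val, h4, h5,
    h6, h7, neg_neg]
  ring

theorem result' (hMain : MainStmt) (hKer : KerStmt) (hRing : RingStmt) (hFin : FinStmt)
    (k : Type) [Field k] [Infinite k] (h2 : (2 : k) ≠ 0) (h : ℕ) :
    ∃ (p q : Fin 3 → k) (l l' : ℕ → Fin 3 → k), Admissible h p q l l' ∧
      RelTypeLE (gmGen h l l') 3 := by
  obtain ⟨c, h0, hc⟩ := exists_seq k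
  refine ⟨_, _, _, _, admissible h2 c h0 hc h, ?_⟩
  have h1 := final hMain hKer hRing hFin k (fun s => c s ^ 2) (fun s => c s ^ 2) h
    (fun i j hij _ h3 => by have := hc _ _ h3; omega)
  convert h1 using 2 with i
  unfold gmGen FF
  simp only [prod_x, prod_y]

theorem result (k : Type) [Field k] [Infinite k] (h2 : (2 : k) ≠ 0) (h : ℕ) :
    ∃ (p q : Fin 3 → k) (l l' : ℕ → Fin 3 → k), Admissible h p q l l' ∧
      RelTypeLE (gmGen h l l') 3 :=
  result' (Pool.Agent.R689.GM.main elim base ker (Pool.Agent.R689.GM.div (low elim base lowKer lowH1)) step) ker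
    ring' fin k h2 h

end Pool.Agent.Results.MP_514cbf_ag.SymmetricChoice
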